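import Mathlib
import Pool.Agent.helper83.LE.SpecB

/-!
# Project LE/NA (MP_baa4d7_al), block CNG: `l(B) ≤ |X|` for EVERY block

`m` is prime to `|G|`, `m ≡ 1` modulo the divisors of `|G|` which are prime to `p`, and modulo `p` (`Gq`; `p = 2` is allowed).
`X` = the characters of the block with `ψ (g ^ m) = ψ g`. CNG: `|X| = l(B) + r`, `r ≥ 0`. No condition on the defect group.
It is CNL (`helper83/LE/SpecB`) without `LoA`.

Proof. Pure lemma PTL: an idempotent matrix `E` over the local ring which commutes with a permutation `π`, `π ^ (p ^ N) = 1`: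
`∑_(j < p ^ N, p ∤ j) tr (π ^ j E)` is a natural number. It is applied to `E c d = ∑_(a ∈ c) e_B (a⁻¹ x_d) = Sf B x_c x_d / |C(x_c)|`
on the classes of `p`-singular elements, `π c = c ^ m`.
-/

set_option autoImplicit false

namespace Pool.Agent.LE

open Pool.Agent.helper58.DC Pool.Agent.DI Pool.Agent.GR Pool.Agent.OB Pool.Agent.DR Pool.Agent.FI Pool.Agent.FI3 Pool.Agent.FI4 Pool.Agent.FI4C

/-- The exponent `m` of a Galois automorphism of `p`-power order which fixes the roots of unity of order prime to `p`. -/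
structure Gq (p n m : ℕ) : Prop where
  cop : m.Coprime n
  reg : ∀ d : ℕ, d ∣ n → ¬ p ∣ d → m ≡ 1 [MOD d]
  one : p ∣ n → m ≡ 1 [MOD p]

theorem Gm2.toGq {p n m : ℕ} (h : Gm2 p n m) : Gq p n m := ⟨h.cop, h.reg, h.one⟩

/-- **CNG**. -/
def CNG_stmt : Prop :=
  ∀ (p : ℕ) (M : Ideal (integralClosure ℤ ℂ)), Setup p M → ∀ (G : Type) [Group G] [Finite G]
    (χ : G → ℂ) (m : ℕ), Gq p (Nat.card G) m →
    ∃ r : ℝ, 0 ≤ r ∧ ({ψ : G → ℂ | ψ ∈ Blk M χ (⊤ : Subgroup G) ∧ PR m ψ}.ncard : ℂ) = LL p M χ ⊤ + r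

end Pool.Agent.LE
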