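import Mathlib
import Pool.Agent.helper26.CNG.Spec

/-!
# Block CNG, the pure lemma PTL

An idempotent matrix `E` over the local ring which commutes with a permutation `π`, `π ^ (p ^ (N + 1)) = 1`:
`∑_(j < p ^ (N + 1), p ∤ j) tr (π ^ j E)` is a natural number.
-/

set_option autoImplicit false

namespace Pool.Agent.LE

open Pool.Agent.helper58.DC Pool.Agent.DI Pool.Agent.GR
section
variable {R K F : Type} [CommRing R] [Field K] [Field F] {I J : Type} [Fintype I] [Fintype J] [DecidableEq I] [DecidableEq J]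

theorem PTL_rank (f : R →+* K) (g : R →+* F) (hf : Function.Injective f) (hg : Function.Surjective g)
    (A : Matrix I J R) : (A.map g).rank ≤ (A.map f).rank := by
  classical
  obtain ⟨r, hr⟩ : ∃ r, r = (A.map g).rank := ⟨_, rfl⟩
  rw [← hr]
  have hr' : Module.finrank F (LinearMap.range (A.map g).mulVecLin) = r := hr.symm
  let b := Module.finBasisOfFinrankEq F (LinearMap.range (A.map g).mulVecLin) hr'
  have hq : ∀ i : Fin r, ∃ q : J → F, (A.map g).mulVecLin q = (b i : I → F) := fun i => (b i).2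
  choose q hq using hq
  let φ : (Fin r → F) →ₗ[F] (I → F) := (LinearMap.range (A.map g).mulVecLin).subtype ∘ₗ (b.equivFun.symm : (Fin r → F) →ₗ[F] _)
  have hφ : LinearMap.ker φ = ⊥ := by
    rw [LinearMap.ker_eq_bot]
    exact (Subtype.val_injective).comp b.equivFun.symm.injective
  obtain ⟨ψ, hψ⟩ := LinearMap.exists_leftInverse_of_injective φ hφ
  let Q' : Matrix J (Fin r) F := fun j i => q i j
  let P' : Matrix (Fin r) I F := LinearMap.toMatrix' ψ
  have hPQ : P' * ((A.map g) * Q') = 1 := by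
    have h1 : (A.map g) * Q' = LinearMap.toMatrix' φ := by
      ext i j
      rw [LinearMap.toMatrix'_apply]
      have h2 : φ (Pi.single j 1) = (b j : I → F) := by
        change ((b.equivFun.symm (Pi.single j 1) : LinearMap.range (A.map g).mulVecLin) : I → F) = _
        rw [b.equivFun_symm_apply]
        simp [Pi.single_apply]
      rw [h2, ← hq j]
      rfl
    rw [h1, ← LinearMap.toMatrix'_comp, hψ, LinearMap.toMatrix'_id]
  have hl : ∀ x : F, ∃ y : R, g y = x := hg
  choose s hs using hl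
  let P : Matrix (Fin r) I R := P'.map s
  let Q : Matrix J (Fin r) R := Q'.map s
  have hP : P.map g = P' := by
    ext i j
    exact hs _
  have hQ : Q.map g = Q' := by
    ext i j
    exact hs _
  have hdet : g (P * (A * Q)).det = 1 := by
    rw [RingHom.map_det]
    have h1 : g.mapMatrix (P * (A * Q)) = 1 := by
      change (P * (A * Q)).map g = 1
      rw [Matrix.map_mul, Matrix.map_mul, hP, hQ, hPQ]
    rw [h1, Matrix.det_one]
  have hdet' : f (P * (A * Q)).det ≠ 0 := by
    intro h0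
    have h1 : (P * (A * Q)).det = 0 := hf (by rw [h0, map_zero])
    rw [h1, map_zero] at hdet
    exact zero_ne_one hdet
  have h3 : (P.map f * ((A.map f) * Q.map f)).rank = r := by
    have h4 : IsUnit (P.map f * ((A.map f) * Q.map f)) := by
      rw [Matrix.isUnit_iff_isUnit_det, isUnit_iff_ne_zero, ← Matrix.map_mul, ← Matrix.map_mul]
      rw [RingHom.map_det] at hdet'
      exact hdet'
    rw [Matrix.rank_of_isUnit _ h4, Fintype.card_fin]
  calc r = (P.map f * ((A.map f) * Q.map f)).rank := h3.symm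
    _ ≤ ((A.map f) * Q.map f).rank := Matrix.rank_mul_le_right _ _
    _ ≤ (A.map f).rank := Matrix.rank_mul_le_left _ _

end

section
variable {k : Type} [Field k] {Ω : Type} [Fintype Ω] [DecidableEq Ω]

/-- the fixed vectors of `B` and `τ` -/
def PTLV (B : Matrix Ω Ω k) (τ : Equiv.Perm Ω) : Submodule k (Ω → k) where
  carrier := {f | B.mulVec f = f ∧ f ∘ τ = f}
  add_mem' := by
    rintro a b ⟨h1, h2⟩ ⟨h3, h4⟩
    refine ⟨by rw [Matrix.mulVec_add, h1, h3], ?_⟩
    funext x
    exact congrArg₂ (· + ·) (congrFun h2 x) (congrFun h4 x)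
  zero_mem' := ⟨by simp, rfl⟩
  smul_mem' := by
    rintro c a ⟨h1, h2⟩
    refine ⟨by rw [Matrix.mulVec_smul, h1], ?_⟩
    funext x
    exact congrArg (c • ·) (congrFun h2 x)

theorem PTL_ker_rank {I : Type} [Fintype I] (A : Matrix I Ω k) (S : Submodule k (Ω → k))
    (hS : ∀ f, f ∈ S ↔ A.mulVec f = 0) : A.rank + Module.finrank k S = Fintype.card Ω := by
  have h1 : S = LinearMap.ker A.mulVecLin := by
    ext f
    rw [hS, LinearMap.mem_ker, Matrix.mulVecLin_apply]
  have h2 := LinearMap.finrank_range_add_finrank_ker A.mulVecLin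
  rw [Module.finrank_fintype_fun_eq_card] at h2
  rw [h1]
  exact h2

theorem PTL_mem (B : Matrix Ω Ω k) (τ : Equiv.Perm Ω) (f : Ω → k) :
    f ∈ PTLV B τ ↔ B.mulVec f = f ∧ f ∘ τ = f := Iff.rfl

/-- the dimensions for `B`, `1 - B` add up -/
theorem PTL_add (B : Matrix Ω Ω k) (hB : B * B = B) (τ : Equiv.Perm Ω)
    (hc : ∀ x y, B (τ x) (τ y) = B x y) :
    Module.finrank k (PTLV B τ) + Module.finrank k (PTLV (1 - B) τ) = Module.finrank k (PTLV (1 : Matrix Ω Ω k) τ) := by
  have hcm : ∀ f : Ω → k, f ∘ τ = f → (B.mulVec f) ∘ τ = B.mulVec f := by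
    intro f hf
    funext x
    change ∑ y, B (τ x) y * f y = ∑ y, B x y * f y
    rw [← Equiv.sum_comp τ (fun y => B (τ x) y * f y)]
    refine Finset.sum_congr rfl fun y _ => ?_
    rw [hc]
    have := congrFun hf y
    simp only [Function.comp_apply] at this
    rw [this]
  have hsup : PTLV B τ ⊔ PTLV (1 - B) τ = PTLV (1 : Matrix Ω Ω k) τ := by
    apply le_antisymm
    · refine sup_le ?_ ?_
      · rintro f ⟨_, h⟩
        exact ⟨by simp, h⟩
      · rintro f ⟨_, h⟩
        exact ⟨by simp, h⟩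
    · rintro f ⟨_, h⟩
      have h1 : B.mulVec f ∈ PTLV B τ := ⟨by rw [Matrix.mulVec_mulVec, hB], hcm f h⟩
      have h2 : f - B.mulVec f ∈ PTLV (1 - B) τ := by
        refine ⟨?_, ?_⟩
        · rw [Matrix.sub_mulVec, Matrix.mulVec_sub, Matrix.mulVec_sub, Matrix.one_mulVec, Matrix.one_mulVec,
            Matrix.mulVec_mulVec, hB, sub_self, sub_zero]
        · funext x
          exact congrArg₂ (· - ·) (congrFun h x) (congrFun (hcm f h) x)
      have h3 : f = B.mulVec f + (f - B.mulVec f) := by abel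
      rw [h3]
      exact Submodule.add_mem_sup h1 h2
  have hinf : PTLV B τ ⊓ PTLV (1 - B) τ = ⊥ := by
    rw [eq_bot_iff]
    rintro f ⟨⟨h1, _⟩, ⟨h2, _⟩⟩
    rw [Matrix.sub_mulVec, Matrix.one_mulVec, h1, sub_self] at h2
    exact h2.symm
  have h := Submodule.finrank_sup_add_finrank_inf_eq (PTLV B τ) (PTLV (1 - B) τ)
  rw [hsup, hinf, finrank_bot, add_zero] at h
  exact h.symm

/-- the dimension of the space of invariants does not depend on the field -/
theorem PTL_orb (τ : Equiv.Perm Ω) :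
    Module.finrank k (PTLV (1 : Matrix Ω Ω k) τ) = Nat.card (Quotient (Equiv.Perm.SameCycle.setoid τ)) := by
  classical
  have hfin : Finite (Quotient (Equiv.Perm.SameCycle.setoid τ)) := inferInstance
  have := Fintype.ofFinite (Quotient (Equiv.Perm.SameCycle.setoid τ))
  let L : (Quotient (Equiv.Perm.SameCycle.setoid τ) → k) →ₗ[k] (Ω → k) :=
    LinearMap.funLeft k k (Quotient.mk (Equiv.Perm.SameCycle.setoid τ))
  have hL : Function.Injective L := by
    intro a b hab
    funext q
    obtain ⟨x, rfl⟩ := Quotient.exists_rep q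
    exact congrFun hab x
  have hr : LinearMap.range L = PTLV (1 : Matrix Ω Ω k) τ := by
    ext f
    constructor
    · rintro ⟨a, rfl⟩
      refine ⟨by simp, ?_⟩
      funext x
      change a _ = a _
      congr 1
      exact Quotient.sound (Equiv.Perm.SameCycle.symm ⟨1, by simp⟩)
    · rintro ⟨_, h⟩
      have h1 : ∀ (i : ℕ) (x : Ω), f ((τ ^ i) x) = f x := by
        intro i
        induction i with
        | zero => intro x; rfl
        | succ i ih =>
          intro x
          rw [pow_succ, Equiv.Perm.mul_apply, ih]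
          exact congrFun h x
      refine ⟨Quotient.lift f ?_, ?_⟩
      · intro a b hab
        obtain ⟨i, _, hi⟩ := Equiv.Perm.SameCycle.exists_pow_eq' hab
        rw [← hi, h1]
      · funext x
        rfl
  rw [← hr, LinearMap.finrank_range_of_inj hL, Module.finrank_fintype_fun_eq_card, Nat.card_eq_fintype_card]

end

section
variable {R K F : Type} [CommRing R] [Field K] [Field F] {Ω : Type} [Fintype Ω] [DecidableEq Ω]

theorem PTL_stack {k : Type} [Field k] (g : R →+* k) (E : Matrix Ω Ω R) (τ : Equiv.Perm Ω) (v : Ω → k) :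
    v ∈ PTLV (E.map g) τ ↔ ((Matrix.fromRows (E - 1) (τ.permMatrix R - 1)).map g).mulVec v = 0 := by
  have h1 : (Matrix.fromRows (E - 1) (τ.permMatrix R - 1)).map g =
      Matrix.fromRows (E.map g - 1) (τ.permMatrix k - 1) := by
    ext i j
    rcases i with i | i
    · by_cases h : i = j <;> simp [Matrix.one_apply, h]
    · by_cases h : i = j <;> by_cases h' : τ i = j <;> simp [Matrix.one_apply, Equiv.Perm.permMatrix, Equiv.toPEquiv_apply, PEquiv.toMatrix_apply, h, h']
  rw [h1, Matrix.fromRows_mulVec, PTL_mem]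
  constructor
  · rintro ⟨h2, h3⟩
    funext i
    rcases i with i | i
    · simp [Matrix.sub_mulVec, h2]
    · simp [Matrix.sub_mulVec, Matrix.permMatrix_mulVec, h3]
  · intro h
    constructor
    · funext i
      have h2 := congrFun h (Sum.inl i)
      simp only [Sum.elim_inl, Matrix.sub_mulVec, Matrix.one_mulVec, Pi.sub_apply, Pi.zero_apply] at h2
      exact sub_eq_zero.1 h2
    · funext i
      have h2 := congrFun h (Sum.inr i)
      simp only [Sum.elim_inr, Matrix.sub_mulVec, Matrix.one_mulVec, Pi.sub_apply, Pi.zero_apply, Matrix.permMatrix_mulVec] at h2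
      exact sub_eq_zero.1 h2

theorem PTL_le (f : R →+* K) (g : R →+* F) (hf : Function.Injective f) (hg : Function.Surjective g)
    (E : Matrix Ω Ω R) (τ : Equiv.Perm Ω) :
    Module.finrank K (PTLV (E.map f) τ) ≤ Module.finrank F (PTLV (E.map g) τ) := by
  have h1 := PTL_rank f g hf hg (Matrix.fromRows (E - 1) (τ.permMatrix R - 1))
  have h2 := PTL_ker_rank _ (PTLV (E.map f) τ) (PTL_stack f E τ)
  have h3 := PTL_ker_rank _ (PTLV (E.map g) τ) (PTL_stack g E τ)
  omega

theorem PTL_eq (f : R →+* K) (g : R →+* F) (hf : Function.Injective f) (hg : Function.Surjective g)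
    (E : Matrix Ω Ω R) (hE : E * E = E) (τ : Equiv.Perm Ω) (hc : ∀ x y, E (τ x) (τ y) = E x y) :
    Module.finrank K (PTLV (E.map f) τ) = Module.finrank F (PTLV (E.map g) τ) := by
  have h1 := PTL_le f g hf hg E τ
  have h2 := PTL_le f g hf hg (1 - E) τ
  have e1 : (1 - E).map f = 1 - E.map f := by
    rw [Matrix.map_sub _ (map_sub f), Matrix.map_one f (map_zero f) (map_one f)]
  have e2 : (1 - E).map g = 1 - E.map g := by
    rw [Matrix.map_sub _ (map_sub g), Matrix.map_one g (map_zero g) (map_one g)]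
  rw [e1, e2] at h2
  have h3 := PTL_add (E.map f) (by rw [← Matrix.map_mul, hE]) τ (fun x y => congrArg f (hc x y))
  have h4 := PTL_add (E.map g) (by rw [← Matrix.map_mul, hE]) τ (fun x y => congrArg g (hc x y))
  have h5 : Module.finrank K (PTLV (1 : Matrix Ω Ω K) τ) = Module.finrank F (PTLV (1 : Matrix Ω Ω F) τ) := by
    rw [PTL_orb, PTL_orb]
  omega

end

section
variable {k : Type} [Field k] {Ω : Type} [Fintype Ω] [DecidableEq Ω]

/-- `B` commutes with the composition with `τ` -/
theorem PTL_comm (B : Matrix Ω Ω k) (τ : Equiv.Perm Ω) (hc : ∀ x y, B (τ x) (τ y) = B x y) (f : Ω → k) :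
    (B.mulVec f) ∘ τ = B.mulVec (f ∘ τ) := by
  funext x
  change ∑ y, B (τ x) y * f y = ∑ y, B x y * f (τ y)
  rw [← Equiv.sum_comp τ (fun y => B (τ x) y * f y)]
  exact Finset.sum_congr rfl fun y _ => by rw [hc]

theorem PTL_jor (p : ℕ) (hp : p.Prime) [CharP k p] (B : Matrix Ω Ω k) (τ : Equiv.Perm Ω)
    (hc : ∀ x y, B (τ x) (τ y) = B x y) :
    Module.finrank k (PTLV B (τ ^ p)) ≤ p * Module.finrank k (PTLV B τ) := by
  classical
  have : Fact p.Prime := ⟨hp⟩
  rcases isEmpty_or_nonempty Ω with hΩ | hΩ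
  · have h1 : Module.finrank k (PTLV B (τ ^ p)) ≤ Module.finrank k (Ω → k) := Submodule.finrank_le _
    rw [Module.finrank_fintype_fun_eq_card, Fintype.card_eq_zero] at h1
    omega
  let P : Module.End k (Ω → k) := LinearMap.funLeft k k τ
  have hP : ∀ (i : ℕ) (f : Ω → k), (P ^ i) f = f ∘ (τ ^ i) := by
    intro i
    induction i with
    | zero => intro f; rfl
    | succ i ih =>
      intro f
      rw [pow_succ, Module.End.mul_apply, ih]
      funext x
      change f (τ ((τ ^ i) x)) = f ((τ ^ (i + 1)) x)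
      rw [pow_succ', Equiv.Perm.mul_apply]
  let N : Module.End k (Ω → k) := P - 1
  have hN : N ^ p = P ^ p - 1 := by
    have : CharP (Module.End k (Ω → k)) p :=
      charP_of_injective_algebraMap (algebraMap k (Module.End k (Ω → k))).injective p
    rw [show N ^ p = (P - 1) ^ p from rfl, sub_pow_char_of_commute p (Commute.one_right P), one_pow]
  let W : ℕ → Submodule k (Ω → k) := fun i => LinearMap.ker (B.mulVecLin - LinearMap.id) ⊓ LinearMap.ker (N ^ i)
  have hW : ∀ i f, f ∈ W i ↔ B.mulVec f = f ∧ (N ^ i) f = 0 := by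
    intro i f
    rw [Submodule.mem_inf, LinearMap.mem_ker, LinearMap.mem_ker, LinearMap.sub_apply, sub_eq_zero]
    rfl
  have hBN : ∀ i f, B.mulVec ((N ^ i) f) = (N ^ i) (B.mulVec f) := by
    intro i
    induction i with
    | zero => intro f; rfl
    | succ i ih =>
      intro f
      rw [pow_succ, Module.End.mul_apply, Module.End.mul_apply, ih]
      congr 1
      change B.mulVec (f ∘ τ - f) = (B.mulVec f) ∘ τ - B.mulVec f
      rw [Matrix.mulVec_sub, PTL_comm B τ hc]
  have h0 : Module.finrank k (W 0) = 0 := by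
    have : W 0 = ⊥ := by
      rw [eq_bot_iff]
      intro f hf
      exact ((hW 0 f).1 hf).2
    rw [this, finrank_bot]
  have h1 : W 1 = PTLV B τ := by
    ext f
    rw [hW]
    constructor
    · rintro ⟨h2, h3⟩
      refine ⟨h2, ?_⟩
      rw [pow_one] at h3
      exact sub_eq_zero.1 h3
    · rintro ⟨h2, h3⟩
      refine ⟨h2, ?_⟩
      rw [pow_one]
      exact sub_eq_zero.2 h3
  have hp' : PTLV B (τ ^ p) ≤ W p := by
    rintro f ⟨h2, h3⟩
    rw [hW, hN]
    refine ⟨h2, ?_⟩
    rw [LinearMap.sub_apply, hP, h3]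
    exact sub_self _
  have hstep : ∀ i, Module.finrank k (W (i + 1)) ≤ Module.finrank k (W i) + Module.finrank k (W 1) := by
    intro i
    let T : W (i + 1) →ₗ[k] (Ω → k) := (N ^ i).domRestrict (W (i + 1))
    have h2 := LinearMap.finrank_range_add_finrank_ker T
    have h3 : LinearMap.range T ≤ W 1 := by
      rintro _ ⟨⟨f, hf⟩, rfl⟩
      rw [hW] at hf ⊢
      refine ⟨?_, ?_⟩
      · change B.mulVec ((N ^ i) f) = (N ^ i) f
        rw [hBN, hf.1]
      · change (N ^ 1) ((N ^ i) f) = 0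
        rw [← Module.End.mul_apply, ← pow_add, add_comm 1 i]
        exact hf.2
    have h4 : (LinearMap.ker T).map (W (i + 1)).subtype ≤ W i := by
      rintro _ ⟨⟨f, hf⟩, hf', rfl⟩
      have h5 := (hW _ _).1 hf
      rw [hW]
      exact ⟨h5.1, hf'⟩
    have h5 := Submodule.finrank_mono h3
    have h6 := Submodule.finrank_mono h4
    rw [Submodule.finrank_map_subtype_eq] at h6
    omega
  have hall : ∀ i, Module.finrank k (W i) ≤ i * Module.finrank k (W 1) := by
    intro i
    induction i with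
    | zero => rw [h0]; omega
    | succ i ih =>
      have := hstep i
      rw [Nat.add_mul, Nat.one_mul]
      omega
  calc Module.finrank k (PTLV B (τ ^ p)) ≤ Module.finrank k (W p) := Submodule.finrank_mono hp'
    _ ≤ p * Module.finrank k (W 1) := hall p
    _ = _ := by rw [h1]

end

section
variable {Ω : Type} [Fintype Ω] [DecidableEq Ω]

theorem PTL_tr (B : Matrix Ω Ω ℂ) (hB : B * B = B) (τ : Equiv.Perm Ω) (n : ℕ) (hn : 0 < n) (hτ : τ ^ n = 1)
    (hc : ∀ x y, B (τ x) (τ y) = B x y) :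
    ∑ j ∈ Finset.range n, ∑ x, B ((τ ^ j) x) x = (n : ℂ) * Module.finrank ℂ (PTLV B τ) := by
  have hn' : (n : ℂ) ≠ 0 := by exact_mod_cast hn.ne'
  let Q : Matrix Ω Ω ℂ := fun x y => (n : ℂ)⁻¹ * ∑ j ∈ Finset.range n, B ((τ ^ j) x) y
  have hQ : ∀ f x, Q.mulVec f x = (n : ℂ)⁻¹ * ∑ j ∈ Finset.range n, (B.mulVec f) ((τ ^ j) x) := by
    intro f x
    change ∑ y, (n : ℂ)⁻¹ * (∑ j ∈ Finset.range n, B ((τ ^ j) x) y) * f y = _
    simp only [Matrix.mulVec, dotProduct, Finset.mul_sum, Finset.sum_mul]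
    rw [Finset.sum_comm]
    refine Finset.sum_congr rfl fun j _ => Finset.sum_congr rfl fun y _ => by ring
  have hshift : ∀ (h : Ω → ℂ) (x : Ω), ∑ j ∈ Finset.range n, h ((τ ^ j) (τ x)) = ∑ j ∈ Finset.range n, h ((τ ^ j) x) := by
    intro h x
    have h1 : ∀ j, h ((τ ^ j) (τ x)) = h ((τ ^ (j + 1)) x) := by
      intro j
      rw [pow_succ, Equiv.Perm.mul_apply]
    simp only [h1]
    have h2 := Finset.sum_range_succ (fun j => h ((τ ^ j) x)) n
    have h3 := Finset.sum_range_succ' (fun j => h ((τ ^ j) x)) n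
    rw [h2] at h3
    have h4 : (τ ^ n) x = x := by rw [hτ]; rfl
    have h5 : (τ ^ 0) x = x := rfl
    rw [h4, h5] at h3
    exact (add_right_cancel h3).symm
  have hproj : LinearMap.IsProj (PTLV B τ) Q.mulVecLin := by
    constructor
    · intro f
      have h1 : ∀ x, Q.mulVec f (τ x) = Q.mulVec f x := by
        intro x
        rw [hQ, hQ, hshift]
      refine ⟨?_, funext h1⟩
      funext x
      have h2 : ∀ (j : ℕ) (g : Ω → ℂ), (B.mulVec g) ∘ ⇑(τ ^ j) = B.mulVec (g ∘ ⇑(τ ^ j)) := by
        intro j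
        induction j with
        | zero => intro g; rfl
        | succ j ih =>
          intro g
          have h3 : (B.mulVec g) ∘ ⇑(τ ^ (j + 1)) = ((B.mulVec g) ∘ ⇑(τ ^ j)) ∘ τ := by
            funext x
            change B.mulVec g ((τ ^ (j + 1)) x) = B.mulVec g ((τ ^ j) (τ x))
            rw [pow_succ, Equiv.Perm.mul_apply]
          rw [h3, ih, PTL_comm B τ hc]
          congr 1
      have h4 : Q.mulVec f = (n : ℂ)⁻¹ • ∑ j ∈ Finset.range n, (B.mulVec f) ∘ ⇑(τ ^ j) := by
        funext x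
        rw [hQ]
        simp [Finset.sum_apply]
      change B.mulVec (Q.mulVec f) x = Q.mulVec f x
      rw [h4, Matrix.mulVec_smul, Matrix.mulVec_sum]
      have h5 : ∀ j : ℕ, B.mulVec ((B.mulVec f) ∘ ⇑(τ ^ j)) = (B.mulVec f) ∘ ⇑(τ ^ j) := by
        intro j
        rw [← h2, Matrix.mulVec_mulVec, hB]
      simp only [h5]
    · rintro f ⟨h1, h2⟩
      have h3 : ∀ (j : ℕ) (x : Ω), f ((τ ^ j) x) = f x := by
        intro j
        induction j with
        | zero => intro x; rfl
        | succ j ih =>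
          intro x
          rw [pow_succ, Equiv.Perm.mul_apply, ih]
          exact congrFun h2 x
      funext x
      change Q.mulVec f x = f x
      rw [hQ, h1]
      simp only [h3]
      rw [Finset.sum_const, Finset.card_range, nsmul_eq_mul]
      field_simp
  have htr := hproj.trace
  have h6 : LinearMap.trace ℂ (Ω → ℂ) Q.mulVecLin = Q.trace := by
    rw [← Matrix.toLin'_apply']
    exact Matrix.trace_toLin'_eq Q
  rw [h6] at htr
  rw [← htr]
  have h7 : Q.trace = ∑ x, (n : ℂ)⁻¹ * ∑ j ∈ Finset.range n, B ((τ ^ j) x) x := rfl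
  rw [h7, ← Finset.mul_sum, Finset.sum_comm, ← mul_assoc, mul_inv_cancel₀ hn', one_mul]

end

section
variable {p : ℕ} {M : Ideal (integralClosure ℤ ℂ)}

theorem PTL_ring (hs : Setup p M) : ∃ (R F : Type) (_ : CommRing R) (_ : Field F) (f : R →+* ℂ) (g : R →+* F),
    Function.Injective f ∧ Function.Surjective g ∧ CharP F p ∧ ∀ z : ℂ, IntAt M z → ∃ r : R, f r = z := by
  have hM : M.IsPrime := hs.prime
  have hu : ∀ y : M.primeCompl, IsUnit (algebraMap (integralClosure ℤ ℂ) ℂ y) := by
    intro y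
    exact isUnit_iff_ne_zero.2 (hs.ne_zero y.2)
  refine ⟨Localization.AtPrime M, IsLocalRing.ResidueField (Localization.AtPrime M), inferInstance, inferInstance,
    IsLocalization.lift (M := M.primeCompl) hu, IsLocalRing.residue (Localization.AtPrime M), ?_,
    IsLocalRing.residue_surjective, ?_, ?_⟩
  · rw [injective_iff_map_eq_zero]
    intro r hr
    obtain ⟨a, b, rfl⟩ := IsLocalization.exists_mk'_eq M.primeCompl r
    rw [IsLocalization.lift_mk'_spec, mul_zero] at hr
    have ha : a = 0 := Subtype.ext hr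
    rw [ha, IsLocalization.mk'_zero]
  · rw [CharP.charP_iff_prime_eq_zero hs.pr]
    have h1 : IsLocalRing.residue (Localization.AtPrime M) ((p : ℕ) : Localization.AtPrime M) = 0 := by
      rw [IsLocalRing.residue_eq_zero_iff]
      have h2 : ((p : ℕ) : Localization.AtPrime M) = algebraMap (integralClosure ℤ ℂ) (Localization.AtPrime M) (p : integralClosure ℤ ℂ) := by
        rw [map_natCast]
      rw [h2]
      exact (IsLocalization.AtPrime.to_map_mem_maximal_iff (Localization.AtPrime M) M _).2 hs.mem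
    rw [map_natCast] at h1
    exact h1
  · rintro z ⟨a, b, hb, e⟩
    refine ⟨IsLocalization.mk' (Localization.AtPrime M) a (⟨b, hb⟩ : M.primeCompl), ?_⟩
    rw [IsLocalization.lift_mk'_spec]
    change (a : ℂ) = (b : ℂ) * z
    rw [← e, mul_comm]

/-- **PTL**. -/
theorem PTL (hs : Setup p M) {Ω : Type} [Fintype Ω] (E : Ω → Ω → ℂ) (π : Equiv.Perm Ω) (N : ℕ)
    (hπ : π ^ (p ^ (N + 1)) = 1) (hi : ∀ x y, IntAt M (E x y)) (hE : ∀ x y, ∑ u, E x u * E u y = E x y)
    (hc : ∀ x y, E (π x) (π y) = E x y) :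
    ∃ n : ℕ, ∑ j ∈ (Finset.range (p ^ (N + 1))).filter (fun j => ¬ p ∣ j), ∑ x, E ((π ^ j) x) x = (n : ℂ) := by
  classical
  obtain ⟨R, F, _, _, f, g, hf, hg, hF, hl⟩ := PTL_ring hs
  choose e he using fun x y => hl (E x y) (hi x y)
  let E₀ : Matrix Ω Ω R := fun x y => e x y
  have hE₀ : E₀.map f = E := by
    ext x y
    exact he x y
  have hmap : Function.Injective (fun A : Matrix Ω Ω R => A.map f) := by
    intro A B h
    ext x y
    exact hf (congrFun (congrFun h x) y)
  have hid : E₀ * E₀ = E₀ := by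
    apply hmap
    change (E₀ * E₀).map f = E₀.map f
    rw [Matrix.map_mul, hE₀]
    ext x y
    exact hE x y
  have hc₀ : ∀ x y, E₀ (π x) (π y) = E₀ x y := by
    intro x y
    apply hf
    change f (e _ _) = f (e _ _)
    rw [he, he, hc]
  have hBE : (show Matrix Ω Ω ℂ from E) * (show Matrix Ω Ω ℂ from E) = (show Matrix Ω Ω ℂ from E) := by
    ext x y
    exact hE x y
  have hcp : ∀ x y, E₀ ((π ^ p) x) ((π ^ p) y) = E₀ x y := by
    have h : ∀ (i : ℕ) (x y : Ω), E₀ ((π ^ i) x) ((π ^ i) y) = E₀ x y := by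
      intro i
      induction i with
      | zero => intro x y; rfl
      | succ i ih =>
        intro x y
        rw [pow_succ, Equiv.Perm.mul_apply, Equiv.Perm.mul_apply, ih, hc₀]
    exact h p
  have hcp' : ∀ x y, E ((π ^ p) x) ((π ^ p) y) = E x y := by
    intro x y
    have := congrArg f (hcp x y)
    change f (e _ _) = f (e _ _) at this
    rwa [he, he] at this
  have h1 := PTL_eq f g hf hg E₀ hid π hc₀
  have h2 := PTL_eq f g hf hg E₀ hid (π ^ p) hcp
  have h3 := PTL_jor (k := F) p hs.pr (E₀.map g) π (fun x y => congrArg g (hc₀ x y))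
  rw [hE₀] at h1 h2
  have hp0 : 0 < p := hs.pr.pos
  have h4 := PTL_tr E hBE π (p ^ (N + 1)) (pow_pos hp0 _) hπ hc
  have h5 := PTL_tr E hBE (π ^ p) (p ^ N) (pow_pos hp0 _) (by rw [← pow_mul, ← pow_succ']; exact hπ) hcp'
  have h6 : ∑ j ∈ (Finset.range (p ^ (N + 1))).filter (fun j => p ∣ j), ∑ x, E ((π ^ j) x) x =
      ∑ i ∈ Finset.range (p ^ N), ∑ x, E (((π ^ p) ^ i) x) x := by
    symm
    refine Finset.sum_bij (fun i _ => p * i) ?_ ?_ ?_ ?_
    · intro i hi
      rw [Finset.mem_filter, Finset.mem_range, pow_succ']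
      rw [Finset.mem_range] at hi
      exact ⟨Nat.mul_lt_mul_of_pos_left hi hp0, dvd_mul_right _ _⟩
    · intro i _ j _ h
      exact Nat.eq_of_mul_eq_mul_left hp0 h
    · intro j hj
      rw [Finset.mem_filter, Finset.mem_range, pow_succ'] at hj
      obtain ⟨hj, i, rfl⟩ := hj
      exact ⟨i, Finset.mem_range.2 (Nat.lt_of_mul_lt_mul_left hj), rfl⟩
    · intro i _
      rw [← pow_mul]
  have h7 := Finset.sum_filter_add_sum_filter_not (Finset.range (p ^ (N + 1))) (fun j => p ∣ j)
    (fun j => ∑ x, E ((π ^ j) x) x)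
  rw [h6, h5, h4] at h7
  obtain ⟨a, ha⟩ : ∃ a, a = Module.finrank ℂ (PTLV (show Matrix Ω Ω ℂ from E) π) := ⟨_, rfl⟩
  obtain ⟨b, hb⟩ : ∃ b, b = Module.finrank ℂ (PTLV (show Matrix Ω Ω ℂ from E) (π ^ p)) := ⟨_, rfl⟩
  have h8 : b ≤ p * a := by
    rw [ha, hb, h1, h2]
    exact h3
  refine ⟨p ^ (N + 1) * a - p ^ N * b, ?_⟩
  have h9 : p ^ N * b ≤ p ^ (N + 1) * a := by
    rw [pow_succ, mul_assoc]
    exact Nat.mul_le_mul_left _ h8
  rw [Nat.cast_sub h9]
  rw [← ha, ← hb] at h7
  push_cast at h7 ⊢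
  linear_combination h7

end

end Pool.Agent.LE
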