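import Mathlib
import Pool.Agent.helper26.CNG.PTL

/-!
# Block CNG: `l(B) ≤ |X|` for every block
-/

set_option autoImplicit false

namespace Pool.Agent.LE

open Pool.Agent.helper58.DC Pool.Agent.DI Pool.Agent.GR Pool.Agent.OB Pool.Agent.DR Pool.Agent.FI Pool.Agent.FI3 Pool.Agent.FI4 Pool.Agent.FI4C

section
variable {G : Type} [Group G] [Fintype G] [DecidableEq G]

/-- the number of the `z` with `z⁻¹ a z = a` -/
def CNGw (a : G) : ℕ := (Finset.univ.filter (fun z : G => z⁻¹ * a * z = a)).card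

theorem CNG_wpos (a : G) : 0 < CNGw a := Finset.card_pos.2 ⟨1, by simp⟩

open Classical in
theorem CNG_fib (a : G) (F : G → ℂ) : ∑ z : G, F (z⁻¹ * a * z) =
    (CNGw a : ℂ) * ∑ t ∈ Finset.univ.filter (fun t : G => IsConj a t), F t := by
  rw [← Finset.sum_fiberwise_of_maps_to (s := Finset.univ) (t := Finset.univ.filter (fun t : G => IsConj a t))
    (g := fun z : G => z⁻¹ * a * z) ?_ (fun z => F (z⁻¹ * a * z)), Finset.mul_sum]
  · refine Finset.sum_congr rfl fun t ht => ?_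
    rw [Finset.mem_filter] at ht
    obtain ⟨z₀, hz₀⟩ := isConj_iff.1 ht.2
    have h1 : ∑ z ∈ Finset.univ.filter (fun z : G => z⁻¹ * a * z = t), F (z⁻¹ * a * z) =
        ∑ z ∈ Finset.univ.filter (fun z : G => z⁻¹ * a * z = t), F t := by
      refine Finset.sum_congr rfl fun z hz => ?_
      rw [(Finset.mem_filter.1 hz).2]
    rw [h1, Finset.sum_const, nsmul_eq_mul]
    congr 1
    have h2 : (Finset.univ.filter (fun z : G => z⁻¹ * a * z = t)).card = CNGw a := by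
      unfold CNGw
      refine Finset.card_nbij' (fun z => z * z₀) (fun z => z * z₀⁻¹) ?_ ?_ ?_ ?_
      · intro z hz
        simp only [Finset.coe_filter, Finset.mem_univ, true_and, Set.mem_ofPred_eq] at hz ⊢
        rw [← hz₀] at hz
        calc (z * z₀)⁻¹ * a * (z * z₀) = z₀⁻¹ * (z⁻¹ * a * z) * z₀ := by group
          _ = z₀⁻¹ * (z₀ * a * z₀⁻¹) * z₀ := by rw [hz]
          _ = a := by group
      · intro z hz
        simp only [Finset.coe_filter, Finset.mem_univ, true_and, Set.mem_ofPred_eq] at hz ⊢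
        rw [← hz₀]
        calc (z * z₀⁻¹)⁻¹ * a * (z * z₀⁻¹) = z₀ * (z⁻¹ * a * z) * z₀⁻¹ := by group
          _ = z₀ * a * z₀⁻¹ := by rw [hz]
      · intro z _
        simp
      · intro z _
        simp
    rw [h2]
  · intro z _
    rw [Finset.mem_filter]
    exact ⟨Finset.mem_univ _, isConj_iff.2 ⟨z⁻¹, by group⟩⟩

/-- a section of the map to the classes -/
noncomputable def CNGr (c : ConjClasses G) : G := Classical.choose (ConjClasses.exists_rep c)

theorem CNG_r (c : ConjClasses G) : ConjClasses.mk (CNGr c) = c := Classical.choose_spec (ConjClasses.exists_rep c)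

open Classical in
theorem CNG_cls (h : G → ℂ) (hc : ∀ g z : G, h (z⁻¹ * g * z) = h g) :
    ∑ g : G, h g = (Nat.card G : ℂ) * ∑ c : ConjClasses G, h (CNGr c) / CNGw (CNGr c) := by
  rw [← Finset.sum_fiberwise (s := Finset.univ) (g := fun g : G => ConjClasses.mk g) (f := h), Finset.mul_sum]
  refine Finset.sum_congr rfl fun c _ => ?_
  have h1 := CNG_fib (CNGr c) h
  have h2 : Finset.univ.filter (fun t : G => IsConj (CNGr c) t) =
      Finset.univ.filter (fun g : G => ConjClasses.mk g = c) := by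
    ext t
    rw [Finset.mem_filter, Finset.mem_filter]
    refine and_congr_right fun _ => ?_
    rw [← ConjClasses.mk_eq_mk_iff_isConj, CNG_r]
    exact eq_comm
  rw [h2] at h1
  have h3 : ∑ z : G, h (z⁻¹ * CNGr c * z) = (Nat.card G : ℂ) * h (CNGr c) := by
    rw [Finset.sum_congr rfl fun z _ => hc (CNGr c) z, Finset.sum_const, Finset.card_univ, nsmul_eq_mul,
      Nat.card_eq_fintype_card]
  rw [h3] at h1
  have h4 : (CNGw (CNGr c) : ℂ) ≠ 0 := by exact_mod_cast (CNG_wpos (CNGr c)).ne'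
  rw [← mul_div_assoc, h1, mul_div_cancel_left₀ _ h4]

theorem CNG_powinj {m : ℕ} (hm : m.Coprime (Nat.card G)) {x y : G} (h : x ^ m = y ^ m) : x = y :=
  (powCoprime (Nat.coprime_comm.1 hm)).injective h

theorem CNG_wconj {a b : G} (h : IsConj a b) : CNGw a = CNGw b := by
  obtain ⟨z₀, hz₀⟩ := isConj_iff.1 h
  unfold CNGw
  refine Finset.card_nbij' (fun z => z₀ * z * z₀⁻¹) (fun z => z₀⁻¹ * z * z₀) ?_ ?_ ?_ ?_
  · intro z hz
    simp only [Finset.coe_filter, Finset.mem_univ, true_and, Set.mem_ofPred_eq] at hz ⊢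
    rw [← hz₀]
    calc (z₀ * z * z₀⁻¹)⁻¹ * (z₀ * a * z₀⁻¹) * (z₀ * z * z₀⁻¹) = z₀ * (z⁻¹ * a * z) * z₀⁻¹ := by group
      _ = z₀ * a * z₀⁻¹ := by rw [hz]
  · intro z hz
    simp only [Finset.coe_filter, Finset.mem_univ, true_and, Set.mem_ofPred_eq] at hz ⊢
    rw [← hz₀] at hz
    calc (z₀⁻¹ * z * z₀)⁻¹ * a * (z₀⁻¹ * z * z₀) = z₀⁻¹ * (z⁻¹ * (z₀ * a * z₀⁻¹) * z) * z₀ := by group
      _ = z₀⁻¹ * (z₀ * a * z₀⁻¹) * z₀ := by rw [hz]
      _ = a := by group
  · intro z _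
    group
  · intro z _
    group

theorem CNG_wpow {m : ℕ} (hm : m.Coprime (Nat.card G)) (a : G) : CNGw (a ^ m) = CNGw a := by
  unfold CNGw
  congr 1
  ext z
  rw [Finset.mem_filter, Finset.mem_filter]
  refine and_congr_right fun _ => ?_
  have h1 : z⁻¹ * a ^ m * z = (z⁻¹ * a * z) ^ m := by
    have := conj_pow (i := m) (a := z⁻¹) (b := a)
    rw [inv_inv] at this
    exact this.symm
  rw [h1]
  exact ⟨fun h => CNG_powinj hm h, fun h => by rw [h]⟩

end

section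
variable {G : Type} [Group G] [Finite G]

theorem CNG_reg {p : ℕ} {m : ℕ} (hm : Gq p (Nat.card G) m) {v : G} (hv : PReg p v) : v ^ m = v := by
  have h2 : m ≡ 1 [MOD orderOf v] := hm.reg _ (orderOf_dvd_natCard v) hv
  have h3 : v ^ m = v ^ 1 := pow_eq_pow_iff_modEq.2 h2
  rw [h3, pow_one]

theorem CNG_regj {p : ℕ} {m : ℕ} (hm : Gq p (Nat.card G) m) {v : G} (hv : PReg p v) (j : ℕ) : v ^ (m ^ j) = v := by
  induction j with
  | zero => rw [pow_zero, pow_one]
  | succ j ih => rw [pow_succ, pow_mul, ih, CNG_reg hm hv]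

/-- the order of `m` modulo `|G|` is a power of `p` -/
theorem CNG_ord {p n m : ℕ} (hp : p.Prime) (hn : 0 < n) (hm : Gq p n m) :
    ∃ N : ℕ, m ^ (p ^ (N + 1)) ≡ 1 [MOD n] := by
  obtain ⟨a, n', hn', e⟩ := Nat.exists_eq_pow_mul_and_not_dvd hn.ne' p hp.ne_one
  have h1 : m ≡ 1 [MOD n'] := hm.reg n' ⟨p ^ a, by rw [e, mul_comm]⟩ hn'
  refine ⟨a, ?_⟩
  rw [e]
  have hcop : (p ^ a).Coprime n' := Nat.Coprime.pow_left a ((Nat.Prime.coprime_iff_not_dvd hp).2 hn')
  rw [← Nat.modEq_and_modEq_iff_modEq_mul hcop]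
  constructor
  · rcases Nat.eq_zero_or_pos a with ha | ha
    · rw [ha, pow_zero]
      exact Nat.modEq_one
    · have h2 : m ≡ 1 [MOD p] := hm.one (by rw [e]; exact Dvd.dvd.mul_right (dvd_pow_self p ha.ne') _)
      have h3 : (p : ℤ) ∣ (m : ℤ) - 1 := by
        have := (Nat.modEq_iff_dvd.1 h2.symm)
        simpa using this
      have h4 := dvd_sub_pow_of_dvd_sub (R := ℤ) (p := p) (a := (m : ℤ)) (b := 1) h3 (a + 1)
      rw [one_pow] at h4
      have h5 : ((p ^ a : ℕ) : ℤ) ∣ ((m ^ p ^ (a + 1) : ℕ) : ℤ) - 1 := by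
        push_cast
        exact dvd_trans (pow_dvd_pow (p : ℤ) (by omega)) h4
      exact (Nat.modEq_iff_dvd.2 (by simpa using h5)).symm
  · have h2 := h1.pow (p ^ (a + 1))
    rwa [one_pow] at h2

end

section
variable {G : Type} [Group G] [Finite G]

/-- the decomposition of an element into its `p`-part and its `p`-regular part -/
theorem CNG_dec {p : ℕ} (hp : p.Prime) (g : G) :
    ∃ y v : G, y * v = g ∧ PEl p y ∧ PReg p v ∧ Commute y v := by
  have hn : orderOf g ≠ 0 := (orderOf_pos g).ne'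
  obtain ⟨a, m, hm, hem⟩ := Nat.exists_eq_pow_mul_and_not_dvd hn p hp.ne_one
  have hcop : Nat.Coprime (p ^ a) m := Nat.Coprime.pow_left a ((Nat.Prime.coprime_iff_not_dvd hp).2 hm)
  obtain ⟨e, he1, he2⟩ := Nat.chineseRemainder hcop 1 0
  obtain ⟨f, hf1, hf2⟩ := Nat.chineseRemainder hcop 0 1
  have hme : m ∣ e := (Nat.modEq_zero_iff_dvd).1 he2
  have hpf : p ^ a ∣ f := (Nat.modEq_zero_iff_dvd).1 hf1
  have hef : e + f ≡ 1 [MOD orderOf g] := by
    rw [hem]
    refine (Nat.modEq_and_modEq_iff_modEq_mul hcop).mp ⟨?_, ?_⟩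
    · simpa using he1.add hf1
    · simpa using he2.add hf2
  refine ⟨g ^ e, g ^ f, ?_, ⟨a, ?_⟩, ?_, Commute.pow_pow_self g e f⟩
  · rw [← pow_add]
    have h1 : g ^ (e + f) = g ^ 1 := pow_eq_pow_iff_modEq.2 hef
    rw [h1, pow_one]
  · rw [← pow_mul]
    apply orderOf_dvd_iff_pow_eq_one.1
    rw [hem, mul_comm]
    exact Nat.mul_dvd_mul_right hme _
  · unfold PReg
    intro hdvd
    apply hm
    refine dvd_trans hdvd ?_
    apply orderOf_dvd_of_pow_eq_one
    rw [← pow_mul]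
    apply orderOf_dvd_iff_pow_eq_one.1
    rw [hem]
    exact Nat.mul_dvd_mul_right hpf m

/-- block orthogonality between `p`-singular and `p`-regular elements -/
theorem CNG_bo (hBR0 : BR0_stmt) {p : ℕ} {M : Ideal (integralClosure ℤ ℂ)} (hs : Setup p M) {S : Set (G → ℂ)}
    (hS : BC M (⊤ : Subgroup G) S) {a b : G} (ha : ¬ PReg p a) (hb : PReg p b) :
    Sf S a b = 0 ∧ Sf S b a = 0 := by
  obtain ⟨y, v, rfl, hy, hv, hc⟩ := CNG_dec hs.pr a
  have hy1 : y ≠ 1 := by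
    rintro rfl
    rw [one_mul] at ha
    exact ha hv
  have ht : ∀ g : G, g ∈ (⊤ : Subgroup G) := fun g => Subgroup.mem_top g
  have h1 := hBR0 p M hs G ⊤ S hS y (ht _) v (ht _) 1 (ht _) b (ht _) hy ⟨0, one_pow _⟩ hv hb hc (Commute.one_left b)
    (fun h _ e => hy1 (by
      have : y = h * (h⁻¹ * y * h) * h⁻¹ := by group
      rw [this, e]
      group))
  have h2 := hBR0 p M hs G ⊤ S hS 1 (ht _) b (ht _) y (ht _) v (ht _) ⟨0, one_pow _⟩ hy hb hv (Commute.one_left b) hc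
    (fun h _ e => hy1 (by
      rw [← e]
      group))
  rw [one_mul] at h1 h2
  exact ⟨h1, h2⟩

/-- the block is stable under the power map -/
theorem CNG_stab (hIDM : IDM_stmt) (hZT4 : ZT4_stmt) (hBR0 : BR0_stmt) {p : ℕ} {M : Ideal (integralClosure ℤ ℂ)}
    (hs : Setup p M) {S : Set (G → ℂ)} (hS : BC M (⊤ : Subgroup G) S) {m : ℕ} (hm : Gq p (Nat.card G) m)
    {ψ : G → ℂ} (hψ : ψ ∈ S) : (fun g => ψ (g ^ m)) ∈ S := by
  classical
  obtain ⟨_, h2, _, _⟩ := hIDM G ⊤ S hS.sub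
  have h3 := h2 _ (hZT4 G m hm.cop ⊤ ψ (hS.sub hψ))
  have h4 := h2 ψ (hS.sub hψ)
  rw [if_pos hψ] at h4
  have h5 : cc (fun g => ψ (g ^ m)) (eS ⊤ S) = cc ψ (eS ⊤ S) := by
    unfold cc
    have h8 : ψ ((1 : G) ^ m) = ψ 1 := by rw [one_pow]
    change (∑ᶠ x, eS (⊤ : Subgroup G) S x * ψ (x ^ m)) / ψ ((1 : G) ^ m) = (∑ᶠ x, eS (⊤ : Subgroup G) S x * ψ x) / ψ 1
    rw [h8]
    congr 1
    refine finsum_congr fun x => ?_
    by_cases hx : PReg p x
    · rw [CNG_reg hm hx]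
    · have h6 : eS (⊤ : Subgroup G) S x = 0 := by
        have h7 := (CNG_bo hBR0 hs hS (a := x) (b := 1) hx (by
          unfold PReg
          rw [orderOf_one]
          exact hs.pr.one_lt.ne' ∘ Nat.dvd_one.1)).2
        unfold eS
        unfold Sf at h7
        rw [h7, zero_div]
      rw [h6, zero_mul, zero_mul]
  rw [h5, h4] at h3
  by_contra hn
  rw [if_neg hn] at h3
  exact one_ne_zero h3

theorem CNG_sf {S : Set (G → ℂ)} (hf : S.Finite) (a b : G) : Sf S a b = ∑ ψ ∈ hf.toFinset, ψ a * ψ b⁻¹ := by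
  unfold Sf
  rw [finsum_mem_eq_finite_toFinset_sum _ hf]

/-- Galois invariance -/
theorem CNG_gal (hIDM : IDM_stmt) (hZT4 : ZT4_stmt) (hBR0 : BR0_stmt) {p : ℕ} {M : Ideal (integralClosure ℤ ℂ)}
    (hs : Setup p M) {S : Set (G → ℂ)} (hS : BC M (⊤ : Subgroup G) S) (hf : S.Finite) {m : ℕ}
    (hm : Gq p (Nat.card G) m) (a b : G) : Sf S (a ^ m) (b ^ m) = Sf S a b := by
  classical
  rw [CNG_sf hf, CNG_sf hf]
  let T : (G → ℂ) → (G → ℂ) := fun ψ g => ψ (g ^ m)
  have hT : Function.Injective T := by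
    intro ψ φ h
    funext g
    obtain ⟨x, hx⟩ := (powCoprime (Nat.coprime_comm.1 hm.cop)).surjective g
    have h1 := congrFun h x
    change ψ (x ^ m) = φ (x ^ m) at h1
    have h2 : x ^ m = g := hx
    rwa [h2] at h1
  have himg : hf.toFinset.image T = hf.toFinset := by
    apply Finset.eq_of_subset_of_card_le
    · intro φ hφ
      obtain ⟨ψ, hψ, rfl⟩ := Finset.mem_image.1 hφ
      rw [Set.Finite.mem_toFinset] at hψ ⊢
      exact CNG_stab hIDM hZT4 hBR0 hs hS hm hψ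
    · rw [Finset.card_image_of_injective _ hT]
  conv_rhs => rw [← himg]
  rw [Finset.sum_image fun _ _ _ _ h => hT h]
  refine Finset.sum_congr rfl fun ψ _ => ?_
  change ψ (a ^ m) * ψ (b ^ m)⁻¹ = ψ (a ^ m) * ψ (b⁻¹ ^ m)
  rw [inv_pow]

/-- orthogonality -/
theorem CNG_ort (hB2 : B2_stmt) [Fintype G] {S : Set (G → ℂ)} (hS : S ⊆ IrrOn (⊤ : Subgroup G)) (hf : S.Finite)
    (a b : G) : ∑ g : G, Sf S a g * Sf S g b = (Nat.card G : ℂ) * Sf S a b := by
  classical
  simp only [CNG_sf hf]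
  have h1 : ∀ g : G, (∑ ψ ∈ hf.toFinset, ψ a * ψ g⁻¹) * (∑ φ ∈ hf.toFinset, φ g * φ b⁻¹) =
      ∑ ψ ∈ hf.toFinset, ∑ φ ∈ hf.toFinset, (ψ a * φ b⁻¹) * (φ g * ψ g⁻¹) := by
    intro g
    rw [Finset.sum_mul_sum]
    refine Finset.sum_congr rfl fun ψ _ => Finset.sum_congr rfl fun φ _ => by ring
  rw [Finset.sum_congr rfl fun g _ => h1 g, Finset.sum_comm, Finset.mul_sum]
  refine Finset.sum_congr rfl fun ψ hψ => ?_
  rw [Finset.sum_comm]
  have h2 : ∀ φ ∈ hf.toFinset, ∑ g : G, (ψ a * φ b⁻¹) * (φ g * ψ g⁻¹) =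
      if φ = ψ then (ψ a * φ b⁻¹) * (Nat.card G : ℂ) else 0 := by
    intro φ hφ
    rw [← Finset.mul_sum]
    have h3 := ((hB2 G ⊤).2 φ (hS ((Set.Finite.mem_toFinset hf).1 hφ))).2.2.2.2 ψ
      (hS ((Set.Finite.mem_toFinset hf).1 hψ))
    rw [finsum_eq_sum_of_fintype, Subgroup.card_top] at h3
    rw [h3]
    split_ifs
    · rfl
    · rw [mul_zero]
  rw [Finset.sum_congr rfl h2, Finset.sum_ite_eq' hf.toFinset ψ, if_pos hψ]
  ring

end

section
variable {G : Type} [Group G] [Finite G]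

theorem CNG_preg {p : ℕ} {a b : G} (h : IsConj a b) : PReg p a ↔ PReg p b := by
  obtain ⟨z, hz⟩ := isConj_iff.1 h
  have h1 : orderOf b = orderOf a := by
    rw [← hz]
    exact MulEquiv.orderOf_eq (MulAut.conj z) a
  unfold PReg
  rw [h1]

theorem CNG_pregpow {p : ℕ} {m : ℕ} (hm : m.Coprime (Nat.card G)) (a : G) : PReg p (a ^ m) ↔ PReg p a := by
  have h1 : orderOf (a ^ m) = orderOf a :=
    Nat.Coprime.orderOf_pow (Nat.coprime_comm.1 (Nat.Coprime.coprime_dvd_right (orderOf_dvd_natCard a) hm))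
  unfold PReg
  rw [h1]

theorem CNG_powconj {a b : G} (h : IsConj a b) (k : ℕ) : IsConj (a ^ k) (b ^ k) := by
  obtain ⟨z, hz⟩ := isConj_iff.1 h
  exact isConj_iff.2 ⟨z, by rw [← hz, conj_pow]⟩

theorem CNG_pr {p n m N : ℕ} (hp : p.Prime) (hn : Nat.card G = n) (hN : m ^ (p ^ (N + 1)) ≡ 1 [MOD n]) {j : ℕ}
    (hj : ¬ p ∣ j) (ψ : G → ℂ) : PR (m ^ j) ψ ↔ PR m ψ := by
  have hit : ∀ (k : ℕ), PR k ψ → ∀ i : ℕ, PR (k ^ i) ψ := by
    intro k hk i
    induction i with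
    | zero => intro g; rw [pow_zero, pow_one]
    | succ i ih =>
      intro g
      rw [pow_succ, pow_mul, hk, ih]
  constructor
  · intro h
    have hc : j.Coprime (p ^ (N + 1)) := Nat.Coprime.pow_right _ ((Nat.coprime_comm.1 ((Nat.Prime.coprime_iff_not_dvd hp).2 hj)))
    obtain ⟨j', -, hj'⟩ := Nat.exists_mul_mod_eq_one_of_coprime hc (Nat.one_lt_pow (by omega) hp.one_lt)
    have h1 : j * j' = p ^ (N + 1) * (j * j' / p ^ (N + 1)) + 1 := by
      have := Nat.div_add_mod (j * j') (p ^ (N + 1))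
      rw [hj'] at this
      exact this.symm
    have h2 : m ^ (j * j') ≡ m [MOD n] := by
      rw [h1, pow_add, pow_mul, pow_one]
      have := (hN.pow (j * j' / p ^ (N + 1))).mul_right m
      rwa [one_pow, one_mul] at this
    intro g
    have h3 := hit _ h j' g
    rw [← pow_mul] at h3
    have h4 : g ^ (m ^ (j * j')) = g ^ m :=
      pow_eq_pow_iff_modEq.2 (h2.of_dvd (hn ▸ orderOf_dvd_natCard g))
    rwa [h4] at h3
  · intro h
    exact hit m h j

theorem CNG_pos {P : Prop} (h : P) (a : ℂ) : ∑ᶠ (_ : P), a = a := by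
  classical
  rw [finsum_eq_if, if_pos h]

theorem CNG_neg {P : Prop} (h : ¬ P) (a : ℂ) : ∑ᶠ (_ : P), a = 0 := by
  classical
  rw [finsum_eq_if, if_neg h]

/-- the number of Brauer characters -/
theorem CNG_LL {p : ℕ} {M : Ideal (integralClosure ℤ ℂ)} {χ : G → ℂ} [Fintype G]
    (hf : (Blk M χ (⊤ : Subgroup G)).Finite) (hd : DecidablePred fun g : G => PReg p g) :
    (Nat.card G : ℂ) * LL p M χ (⊤ : Subgroup G) =
      ∑ g : G, if PReg p g then Sf (Blk M χ (⊤ : Subgroup G)) g g else 0 := by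
  have hG : (Nat.card G : ℂ) ≠ 0 := by exact_mod_cast (Nat.card_pos (α := G)).ne'
  unfold LL
  rw [finsum_mem_eq_finite_toFinset_sum _ hf]
  have h1 : ∀ φ : G → ℂ, EE p (⊤ : Subgroup G) φ φ =
      (∑ g : G, if PReg p g then φ g * φ g⁻¹ else 0) / Nat.card G := by
    intro φ
    unfold EE
    rw [Subgroup.card_top]
    congr 1
    rw [finsum_eq_sum_of_fintype]
    refine Finset.sum_congr rfl fun g _ => ?_
    by_cases h : PReg p g
    · rw [if_pos h]
      exact CNG_pos ⟨Subgroup.mem_top g, h⟩ _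
    · rw [if_neg h]
      exact CNG_neg (fun h' => h h'.2) _
  rw [Finset.sum_congr rfl fun φ _ => h1 φ, ← Finset.sum_div, mul_div_cancel₀ _ hG, Finset.sum_comm]
  refine Finset.sum_congr rfl fun g _ => ?_
  by_cases h : PReg p g
  · simp only [if_pos h]
    rw [CNG_sf hf]
  · simp only [if_neg h, Finset.sum_const_zero]

end

/-- **CNG**. -/
theorem CNG (hIDM : IDM_stmt) (hEIN : EIN_stmt) (hBCL : BCL_stmt) (hBR0 : BR0_stmt) (hSFC : SFC_stmt)
    (hCFX : Pool.Agent.FI4C.CFX_stmt) (hB2 : B2_stmt) (hZT4 : ZT4_stmt) : CNG_stmt := by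
  classical
  intro p M hs G _ _ χ m hm
  have : Fintype G := Fintype.ofFinite G
  have hG : (Nat.card G : ℂ) ≠ 0 := by exact_mod_cast (Nat.card_pos (α := G)).ne'
  obtain ⟨S, hSd⟩ : ∃ S, S = Blk M χ (⊤ : Subgroup G) := ⟨_, rfl⟩
  have hS : BC M (⊤ : Subgroup G) S := by
    rw [hSd]
    exact hBCL G M χ ⊤
  have hf : S.Finite := (hB2 G ⊤).1.subset hS.sub
  obtain ⟨hsf1, hsf2, _⟩ := hSFC G ⊤ S hS.sub
  have hcl : ∀ a a' b b' : G, IsConj a a' → IsConj b b' → Sf S a b = Sf S a' b' := by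
    intro a a' b b' h h'
    obtain ⟨z, hz⟩ := isConj_iff.1 h
    obtain ⟨z', hz'⟩ := isConj_iff.1 h'
    rw [← hz, ← hz', (hsf1 a (z' * b * z'⁻¹) z (Subgroup.mem_top _)).1, (hsf1 a b z' (Subgroup.mem_top _)).2]
  obtain ⟨N, hN⟩ := CNG_ord hs.pr Nat.card_pos hm
  -- the permutation of the classes
  have hr : ∀ g : G, IsConj (CNGr (ConjClasses.mk g)) g := fun g =>
    ConjClasses.mk_eq_mk_iff_isConj.1 (CNG_r _)
  let P : ConjClasses G → ConjClasses G := fun c => ConjClasses.mk ((CNGr c) ^ m)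
  have hP : ∀ g, P (ConjClasses.mk g) = ConjClasses.mk (g ^ m) := fun g =>
    ConjClasses.mk_eq_mk_iff_isConj.2 (CNG_powconj (hr g) m)
  have hPi : Function.Injective P := by
    intro c d h
    obtain ⟨x, rfl⟩ := ConjClasses.exists_rep c
    obtain ⟨y, rfl⟩ := ConjClasses.exists_rep d
    rw [hP, hP] at h
    obtain ⟨z, hz⟩ := isConj_iff.1 (ConjClasses.mk_eq_mk_iff_isConj.1 h)
    rw [← conj_pow] at hz
    exact ConjClasses.mk_eq_mk_iff_isConj.2 (isConj_iff.2 ⟨z, CNG_powinj hm.cop hz⟩)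
  let π : Equiv.Perm (ConjClasses G) := Equiv.ofBijective P (Finite.injective_iff_bijective.1 hPi)
  have hπ : ∀ (j : ℕ) (g : G), (π ^ j) (ConjClasses.mk g) = ConjClasses.mk (g ^ (m ^ j)) := by
    intro j
    induction j with
    | zero => intro g; rw [pow_zero, pow_zero, pow_one]; rfl
    | succ j ih =>
      intro g
      rw [pow_succ', Equiv.Perm.mul_apply, ih]
      change P _ = _
      rw [hP, ← pow_mul, pow_succ]
  have hπ1 : π ^ (p ^ (N + 1)) = 1 := by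
    ext c
    obtain ⟨x, rfl⟩ := ConjClasses.exists_rep c
    rw [hπ]
    have h1 : x ^ (m ^ (p ^ (N + 1))) = x ^ 1 :=
      pow_eq_pow_iff_modEq.2 (hN.of_dvd (orderOf_dvd_natCard x))
    rw [h1, pow_one]
    rfl
  -- the matrix
  let E : ConjClasses G → ConjClasses G → ℂ := fun c d =>
    if PReg p (CNGr c) then 0 else Sf S (CNGr c) (CNGr d) / CNGw (CNGr c)
  have hw : ∀ a : G, (CNGw a : ℂ) ≠ 0 := fun a => by exact_mod_cast (CNG_wpos a).ne'
  have hi : ∀ c d, IntAt M (E c d) := by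
    intro c d
    change IntAt M (if PReg p (CNGr c) then 0 else Sf S (CNGr c) (CNGr d) / CNGw (CNGr c))
    split_ifs
    · exact IntAt.zero hs
    · obtain ⟨_, _, _, h4⟩ := hIDM G ⊤ S hS.sub
      have h5 := h4 (CNGr c) (Subgroup.mem_top _) (CNGr d) (Subgroup.mem_top _)
      rw [Subgroup.coe_top, finsum_mem_univ, finsum_eq_sum_of_fintype] at h5
      have h6 := CNG_fib (CNGr c) (fun t => eS (⊤ : Subgroup G) S (t⁻¹ * CNGr d))
      have h7 : ∀ z : G, eS (⊤ : Subgroup G) S ((z⁻¹ * CNGr c * z)⁻¹ * CNGr d) =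
          eS (⊤ : Subgroup G) S (z⁻¹ * (CNGr c)⁻¹ * z * CNGr d) := by
        intro z
        congr 1
        group
      rw [Finset.sum_congr rfl fun z _ => h7 z, h5] at h6
      rw [h6, mul_div_cancel_left₀ _ (hw _)]
      exact IntAt.sum hs _ fun t _ => hEIN p M hs G ⊤ S hS _
  have hE : ∀ c d, ∑ u, E c u * E u d = E c d := by
    intro c d
    by_cases hcr : PReg p (CNGr c)
    · have h1 : ∀ x, E c x = 0 := fun x => if_pos hcr
      simp only [h1, zero_mul, Finset.sum_const_zero]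
    · have h1 : ∀ x, E c x = Sf S (CNGr c) (CNGr x) / CNGw (CNGr c) := fun x => if_neg hcr
      have h2 := CNG_cls (fun g => Sf S (CNGr c) g * Sf S g (CNGr d)) (by
        intro g z
        have h3 : IsConj (z⁻¹ * g * z) g := isConj_iff.2 ⟨z, by group⟩
        change Sf S (CNGr c) (z⁻¹ * g * z) * Sf S (z⁻¹ * g * z) (CNGr d) = _
        rw [hcl _ _ _ _ (IsConj.refl _) h3, hcl _ _ _ _ h3 (IsConj.refl _)])
      rw [CNG_ort hB2 hS.sub hf] at h2
      have h3 := mul_left_cancel₀ hG h2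
      rw [h1 d, h3, Finset.sum_div]
      refine Finset.sum_congr rfl fun u _ => ?_
      rw [h1]
      change _ * (if PReg p (CNGr u) then 0 else Sf S (CNGr u) (CNGr d) / CNGw (CNGr u)) = _
      by_cases hu : PReg p (CNGr u)
      · rw [if_pos hu, mul_zero, (CNG_bo hBR0 hs hS hcr hu).1, zero_mul, zero_div, zero_div]
      · rw [if_neg hu]
        ring
  have hrp : ∀ (j : ℕ) (c : ConjClasses G), IsConj (CNGr ((π ^ j) c)) ((CNGr c) ^ (m ^ j)) := by
    intro j c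
    have h1 : (π ^ j) c = ConjClasses.mk ((CNGr c) ^ (m ^ j)) := by
      conv_lhs => rw [← CNG_r c]
      exact hπ j _
    rw [h1]
    exact hr _
  have hrp1 : ∀ c : ConjClasses G, IsConj (CNGr (π c)) ((CNGr c) ^ m) := by
    intro c
    have := hrp 1 c
    rwa [pow_one, pow_one] at this
  have hc : ∀ c d, E (π c) (π d) = E c d := by
    intro c d
    change (if PReg p (CNGr (π c)) then 0 else Sf S (CNGr (π c)) (CNGr (π d)) / CNGw (CNGr (π c))) =
      (if PReg p (CNGr c) then 0 else Sf S (CNGr c) (CNGr d) / CNGw (CNGr c))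
    have h1 : PReg p (CNGr (π c)) ↔ PReg p (CNGr c) := (CNG_preg (hrp1 c)).trans (CNG_pregpow hm.cop _)
    rw [hcl _ _ _ _ (hrp1 c) (hrp1 d), CNG_gal hIDM hZT4 hBR0 hs hS hf hm, CNG_wconj (hrp1 c), CNG_wpow hm.cop]
    simp only [h1]
  obtain ⟨n, hn⟩ := PTL hs E π N hπ1 hi hE hc
  -- the fixed characters
  have hX : ∀ j : ℕ, ({ψ : G → ℂ | ψ ∈ S ∧ PR (m ^ j) ψ}.ncard : ℂ) = LL p M χ ⊤ + ∑ c, E ((π ^ j) c) c := by
    intro j
    have hmj : (m ^ j).Coprime (Nat.card G) := Nat.Coprime.pow_left j hm.cop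
    have h1 := hCFX M G χ (m ^ j) hmj
    rw [← hSd, Subgroup.coe_top, finsum_mem_univ, finsum_eq_sum_of_fintype] at h1
    have h2 : ∀ g : G, Sf S (g ^ (m ^ j)) g = (if PReg p g then Sf S g g else 0) +
        (if PReg p g then 0 else Sf S (g ^ (m ^ j)) g) := by
      intro g
      by_cases h : PReg p g
      · rw [if_pos h, if_pos h, CNG_regj hm h, add_zero]
      · rw [if_neg h, if_neg h, zero_add]
    rw [Finset.sum_congr rfl fun g _ => h2 g, Finset.sum_add_distrib] at h1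
    have hL := CNG_LL (p := p) (M := M) (χ := χ) (hSd ▸ hf) (Classical.decPred _)
    rw [← hSd] at hL
    have h3 := CNG_cls (fun g => if PReg p g then 0 else Sf S (g ^ (m ^ j)) g) (by
      intro g z
      have h4 : IsConj (z⁻¹ * g * z) g := isConj_iff.2 ⟨z, by group⟩
      change (if PReg p (z⁻¹ * g * z) then 0 else Sf S ((z⁻¹ * g * z) ^ (m ^ j)) (z⁻¹ * g * z)) = _
      rw [hcl _ _ _ _ (CNG_powconj h4 (m ^ j)) h4]
      simp only [CNG_preg (p := p) h4])
    have h5 : ∀ c, E ((π ^ j) c) c =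
        (if PReg p (CNGr c) then 0 else Sf S ((CNGr c) ^ (m ^ j)) (CNGr c)) / CNGw (CNGr c) := by
      intro c
      change (if PReg p (CNGr ((π ^ j) c)) then 0 else Sf S (CNGr ((π ^ j) c)) (CNGr c) / CNGw (CNGr ((π ^ j) c))) = _
      have h6 : PReg p (CNGr ((π ^ j) c)) ↔ PReg p (CNGr c) := (CNG_preg (hrp j c)).trans (CNG_pregpow hmj _)
      rw [hcl _ _ _ _ (hrp j c) (IsConj.refl (CNGr c)), CNG_wconj (hrp j c), CNG_wpow hmj]
      simp only [h6]
      split_ifs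
      · rw [zero_div]
      · rfl
    rw [h3, ← hL, ← mul_add] at h1
    have h6 := mul_left_cancel₀ hG h1
    rw [h6]
    congr 1
    exact Finset.sum_congr rfl fun c _ => (h5 c).symm
  have hXj : ∀ j : ℕ, ¬ p ∣ j → {ψ : G → ℂ | ψ ∈ S ∧ PR (m ^ j) ψ} = {ψ : G → ℂ | ψ ∈ S ∧ PR m ψ} := by
    intro j hj
    ext ψ
    exact and_congr_right fun _ => CNG_pr hs.pr rfl hN hj ψ
  let J := (Finset.range (p ^ (N + 1))).filter (fun j => ¬ p ∣ j)
  have hJ : 0 < J.card := Finset.card_pos.2 ⟨1, by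
    rw [Finset.mem_filter, Finset.mem_range]
    exact ⟨Nat.one_lt_pow (by omega) hs.pr.one_lt, fun h => hs.pr.one_lt.ne' (Nat.dvd_one.1 h)⟩⟩
  have hsum : (J.card : ℂ) * ({ψ : G → ℂ | ψ ∈ S ∧ PR m ψ}.ncard : ℂ) = (J.card : ℂ) * LL p M χ ⊤ + n := by
    rw [← hn]
    have h1 : ∀ j ∈ J, ({ψ : G → ℂ | ψ ∈ S ∧ PR m ψ}.ncard : ℂ) = LL p M χ ⊤ + ∑ c, E ((π ^ j) c) c := by
      intro j hj
      rw [← hXj j (Finset.mem_filter.1 hj).2]
      exact hX j
    have h2 := Finset.sum_congr rfl h1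
    rw [Finset.sum_const, nsmul_eq_mul, Finset.sum_add_distrib, Finset.sum_const, nsmul_eq_mul] at h2
    exact h2
  have hJ' : (J.card : ℂ) ≠ 0 := by exact_mod_cast hJ.ne'
  refine ⟨(n : ℝ) / (J.card : ℝ), by positivity, ?_⟩
  rw [← hSd]
  apply mul_left_cancel₀ hJ'
  rw [hsum]
  push_cast
  field_simp

end Pool.Agent.LE
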