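import Mathlib
import Pool.Agent.helper26.CNG.CNG
import Pool.Agent.helper58.FI4.AllC

/-!
# Block CNG closed
-/

set_option autoImplicit false

namespace Pool.Agent.LE.AllCNG

/-- CNG without hypotheses. -/
theorem cCNG : CNG_stmt :=
  LE.CNG GR.All.dIDM GR.All.dEIN GR.All.dBCL GR.All.dBR0 GR.All.dSFC FI4C.AllC.cCFX GR.All.dB2 Pool.Agent.OB.AllG.gZT4

end Pool.Agent.LE.AllCNG
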